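import Mathlib

/-!
# Jacobi sums with values in a field of characteristic zero, and transfer between two such fields
-/

set_option autoImplicit false
set_option linter.unusedSectionVars false

namespace Pool.Agent.Y145.DI

open Finset Polynomial

variable {E : Type} [Field E] [Fintype E] [DecidableEq E]
variable {K : Type} [Field K] [CharZero K]

/-- The Jacobi sum in `n` variables. -/
noncomputable def jacG (n : ℕ) (c : E) (χ : MulChar E K) : K :=
  ∑ x ∈ univ.filter (fun x : Fin n → E => ∑ j, x j = c), ∏ j, χ (x j)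

theorem pow_applyG (χ : MulChar E K) (n : ℕ) {a : E} (ha : a ≠ 0) : (χ ^ n) a = χ a ^ n :=
  MulChar.pow_apply_coe χ n (Units.mk0 a ha)

theorem card_mul_jacG (n : ℕ) (c : E) (χ : MulChar E K) {ψ : AddChar E K} (hψ : ψ.IsPrimitive) :
    (Fintype.card E : K) * jacG n c χ =
      ∑ a : E, ψ (-(a * c)) * gaussSum χ (AddChar.mulShift ψ a) ^ n := by
  have hprim : ∀ w : E, ∑ a : E, ψ (a * w) = if w = 0 then (Fintype.card E : K) else 0 := by
    intro w
    have := AddChar.sum_mulShift w hψ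
    push_cast at this
    exact this
  have h1 : (Fintype.card E : K) * jacG n c χ =
      ∑ x : Fin n → E, ∑ a : E, ψ (a * (∑ j, x j - c)) * ∏ j, χ (x j) := by
    unfold jacG
    rw [mul_sum, sum_filter]
    refine sum_congr rfl fun x _ => ?_
    rw [← sum_mul, hprim]
    simp only [sub_eq_zero]
    split_ifs <;> simp
  rw [h1, sum_comm]
  refine sum_congr rfl fun a _ => ?_
  unfold gaussSum
  rw [Fintype.sum_pow, mul_sum]
  refine sum_congr rfl fun x _ => ?_
  rw [prod_mul_distrib]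
  have h2 : ∏ j, (AddChar.mulShift ψ a) (x j) = ψ (a * ∑ j, x j) := by
    rw [mul_sum, ← toAdd_ofAdd (∑ j, a * x j), ofAdd_sum, ← AddChar.toMonoidHom_apply, map_prod]
    refine prod_congr rfl fun j _ => ?_
    rw [AddChar.mulShift_apply, AddChar.toMonoidHom_apply, toAdd_ofAdd]
  rw [h2, mul_sub, sub_eq_add_neg, AddChar.map_add_eq_mul]
  ring

theorem jacG_mul (n : ℕ) (hn : 0 < n) {χ : MulChar E K} (hχn : χ ^ n ≠ 1)
    {ψ : AddChar E K} (hψ : ψ.IsPrimitive) :
    jacG n 1 χ * gaussSum (χ ^ n) ψ = gaussSum χ ψ ^ n := by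
  have hχ : χ ≠ 1 := by
    rintro rfl
    exact hχn (one_pow n)
  have hQ : (Fintype.card E : K) ≠ 0 := by exact_mod_cast Fintype.card_ne_zero
  have h1 : (Fintype.card E : K) * jacG n 1 χ = gaussSum χ ψ ^ n * gaussSum (χ⁻¹ ^ n) ψ⁻¹ := by
    rw [card_mul_jacG n 1 χ hψ]
    have h0 : gaussSum (χ⁻¹ ^ n) ψ⁻¹ = ∑ a, (χ⁻¹ ^ n) a * ψ⁻¹ a := rfl
    rw [h0, mul_sum]
    refine sum_congr rfl fun a _ => ?_
    rw [mul_one]
    by_cases ha : a = 0
    · subst ha
      rw [MulChar.map_zero, zero_mul, mul_zero, AddChar.mulShift_zero, gaussSum_one_right hχ,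
        zero_pow hn.ne', mul_zero]
    · rw [show gaussSum χ (AddChar.mulShift ψ a) = χ⁻¹ a * gaussSum χ ψ from
        gaussSum_mulShift_eq χ ψ (Units.mk0 a ha), mul_pow, pow_applyG χ⁻¹ n ha,
        AddChar.inv_apply]
      ring
  have h2 := gaussSum_mul_gaussSum_eq_card hχn hψ
  rw [← inv_pow] at h2
  apply mul_left_cancel₀ hQ
  linear_combination gaussSum (χ ^ n) ψ * h1 + gaussSum χ ψ ^ n * h2

open Classical in
/-- The polynomial whose values are the Jacobi sums. -/
noncomputable def jacPoly (n : ℕ) (c g : E) : ℤ[X] :=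
  ∑ x ∈ univ.filter (fun x : Fin n → E => ∑ j, x j = c),
    if h : ∃ a : ℕ, ∏ j, x j = g ^ a then X ^ (Classical.choose h) else 0

theorem aeval_jacPoly (n : ℕ) (c : E) {g : E} (hg0 : g ≠ 0) (hg : ∀ y : E, y ≠ 0 → ∃ a : ℕ, y = g ^ a)
    (χ : MulChar E K) : aeval (χ g) (jacPoly n c g) = jacG n c χ := by
  unfold jacPoly jacG
  rw [map_sum]
  refine sum_congr rfl fun x _ => ?_
  rw [← map_prod]
  by_cases h0 : ∏ j, x j = 0
  · rw [dif_neg, map_zero, h0, MulChar.map_zero]
    rintro ⟨a, ha⟩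
    rw [h0] at ha
    exact pow_ne_zero a hg0 ha.symm
  · have h : ∃ a : ℕ, ∏ j, x j = g ^ a := hg _ h0
    rw [dif_pos h, map_pow, aeval_X, ← map_pow]
    exact congrArg χ (Classical.choose_spec h).symm

/-- An integer value of the Jacobi sum of a character of order `N` is the value for all of them. -/
theorem transfer {K' : Type} [Field K'] [CharZero K'] (n : ℕ) (c : E) (χ : MulChar E K)
    (χ' : MulChar E K') (N : ℕ) (hN : 0 < N) (h1 : orderOf χ = N) (h2 : orderOf χ' = N) (C : ℤ)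
    (h : jacG n c χ = C) : jacG n c χ' = C := by
  obtain ⟨g, hg⟩ := IsCyclic.exists_generator (α := Eˣ)
  have hg' : ∀ y : E, y ≠ 0 → ∃ a : ℕ, y = (g : E) ^ a := by
    intro y hy
    obtain ⟨a, ha⟩ := (mem_powers_iff_mem_zpowers.2 (hg (Units.mk0 y hy)))
    refine ⟨a, ?_⟩
    have h3 := congrArg (fun u : Eˣ => (u : E)) ha
    simp only [Units.val_pow_eq_pow_val, Units.val_mk0] at h3
    exact h3.symm
  have key : ∀ {F : Type} [Field F] [CharZero F] (ξ : MulChar E F), orderOf ξ = N →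
      IsPrimitiveRoot (ξ g) N := by
    intro F _ _ ξ hξ
    have h3 : ∀ m : ℕ, ξ g ^ m = 1 ↔ ξ ^ m = 1 := by
      intro m
      constructor
      · intro h4
        ext u
        obtain ⟨a, ha⟩ := mem_powers_iff_mem_zpowers.2 (hg u)
        rw [← ha]
        simp only [Units.val_pow_eq_pow_val, map_pow, MulChar.pow_apply_coe, h4, one_pow]
        rw [MulChar.one_apply_coe, one_pow]
      · intro h4
        rw [← MulChar.pow_apply_coe, h4, MulChar.one_apply_coe]
    refine ⟨?_, ?_⟩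
    · rw [h3, ← hξ, pow_orderOf_eq_one]
    · intro m hm
      rw [h3] at hm
      rw [← hξ]
      exact orderOf_dvd_of_pow_eq_one hm
  have hp1 := key χ h1
  have hp2 := key χ' h2
  have h5 : aeval (χ g) (jacPoly n c (g : E) - Polynomial.C C) = 0 := by
    rw [map_sub, aeval_jacPoly n c g.ne_zero hg', h, aeval_C]
    simp
  have h6 : cyclotomic N ℤ ∣ jacPoly n c (g : E) - Polynomial.C C := by
    rw [cyclotomic_eq_minpoly hp1 hN]
    exact minpoly.isIntegrallyClosed_dvd (hp1.isIntegral hN) h5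
  obtain ⟨R, hR⟩ := h6
  have h7 : aeval (χ' g) (jacPoly n c (g : E) - Polynomial.C C) = 0 := by
    rw [hR, map_mul]
    have h8 : aeval (χ' g) (cyclotomic N ℤ) = 0 := by
      rw [cyclotomic_eq_minpoly hp2 hN, minpoly.aeval]
    rw [h8, zero_mul]
  rw [map_sub, aeval_jacPoly n c g.ne_zero hg', aeval_C, sub_eq_zero] at h7
  rw [h7]
  simp

end Pool.Agent.Y145.DI
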