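import Pool.Agent.Y145.DI.Lift
import Pool.Agent.Y145.DW.Fin

/-!
# The L-polynomial of the mirror family over a Kummer extension of any degree
-/

set_option autoImplicit false
set_option linter.unusedSectionVars false
set_option linter.style.haveILetI false

namespace Pool.Agent.Y145.DI

open Polynomial Finset Pool.Agent.Y145.KS Pool.Agent.H498R2.Kl Pool.Agent.Y145.DW

theorem orderOf_pos_dvd' {q e : ℕ} (he : 0 < e) (hq : Nat.Coprime q e) :
    0 < orderOf (q : ZMod e) := (orderOf_pos_dvd he hq).1

/-- Data for all levels. -/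
theorem all_levels {k : Type} [Field k] [Finite k] (n e : ℕ) (hn : Odd n) (he : 0 < e)
    (hne : ¬ e ∣ n) (hcop : Nat.Coprime (Nat.card k) e) :
    ∃ (c : ℕ) (γ : ℕ → ℂ), Nat.totient e = orderOf (Nat.card k : ZMod e) * c ∧
      (∀ a < c, ∃ (E : Type) (_ : Field E) (_ : Fintype E) (_ : DecidableEq E) (_ : Algebra k E)
        (χ : MulChar E ℂ), Fintype.card E = Nat.card k ^ orderOf (Nat.card k : ZMod e) ∧
        orderOf χ = e ∧ jac n 1 χ = γ a) ∧
      ∀ r : ℕ, 0 < r → ∀ (E : Type) [Field E] [Fintype E] [DecidableEq E] [Algebra k E],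
        Module.finrank k E = r →
        ∑ χ ∈ univ.filter (fun χ : MulChar E ℂ => orderOf χ = e), jac n 1 χ =
          if orderOf (Nat.card k : ZMod e) ∣ r then
            orderOf (Nat.card k : ZMod e) * ∑ a ∈ range c, γ a ^
              (r / orderOf (Nat.card k : ZMod e)) else 0 := by
  classical
  letI : Fintype k := Fintype.ofFinite k
  set q := Nat.card k with hq
  set o := orderOf (q : ZMod e) with ho
  have hq1 : 1 < q := Finite.one_lt_card
  have ho0 : 0 < o := orderOf_pos_dvd' he hcop
  obtain ⟨K, hK1, hK2, hK3, hK⟩ := exists_ext k o ho0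
  letI : DecidableEq K := Classical.decEq K
  have hcK : Fintype.card K = q ^ o := by
    rw [Module.card_eq_pow_finrank (K := k) (V := K), hK, hq, Nat.card_eq_fintype_card]
  obtain ⟨c, γ, h1, h2, h3⟩ := level_data (k := k) (E := K) n e hcop hK
  refine ⟨c, γ, h1, fun a ha => ?_, ?_⟩
  · obtain ⟨χ, h4, h5⟩ := h2 a ha
    exact ⟨K, inferInstance, inferInstance, inferInstance, inferInstance, χ, hcK, h4, h5⟩
  · intro r hr E _ _ _ _ hE
    have hcE : Fintype.card E = q ^ r := by
      rw [Module.card_eq_pow_finrank (K := k) (V := E), hE, hq, Nat.card_eq_fintype_card]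
    by_cases hor : o ∣ r
    · rw [if_pos hor]
      haveI : Module.Finite k K := Module.Finite.of_finite
      haveI : Module.Finite k E := Module.Finite.of_finite
      obtain ⟨φ⟩ := FiniteField.nonempty_algHom_of_finrank_dvd (F := k) (K := K) (L := E)
        (by rw [hK, hE]; exact hor)
      letI : Algebra K E := φ.toRingHom.toAlgebra
      haveI : IsScalarTower k K E := IsScalarTower.of_algebraMap_eq fun x => (φ.commutes x).symm
      have hfin : Module.finrank K E = r / o := by
        have h6 := Module.finrank_mul_finrank k K E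
        rw [hK, hE] at h6
        rw [← h6, Nat.mul_div_cancel_left _ ho0]
      have heK : e ∣ Fintype.card K - 1 := by
        rw [hcK]
        exact (dvd_iff_orderOf (by omega) o).2 dvd_rfl
      rw [← image_nlift (K := K) (F := E) e heK, sum_image fun a _ b _ h => nlift_injective h,
        ← h3 (r / o)]
      refine sum_congr rfl fun χ hχ => ?_
      rw [mem_filter] at hχ
      rw [jac_nlift n hn χ, hfin]
      rw [Ne, ← orderOf_dvd_iff_pow_eq_one, hχ.2]
      exact hne
    · rw [if_neg hor]
      have h6 : univ.filter (fun χ : MulChar E ℂ => orderOf χ = e) = ∅ := by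
        rw [← card_eq_zero, card_order, if_neg]
        rw [hcE, dvd_iff_orderOf (by omega) r]
        exact hor
      rw [h6, sum_empty]

/-- The L-polynomial and its order at the central point. -/
theorem lpoly {k : Type} [Field k] [Finite k] (n d : ℕ) (hn : Odd n) (hd0 : d ≠ 0)
    (hcop : Nat.Coprime (Nat.card k) d) :
    ∃ L : ℂ[X], DW.IsLPolynomial L (traceSum k n d) ∧ ∀ (i : ℕ) (A : ℕ → Prop) [DecidablePred A],
      (∀ e, e ∣ d → ¬ e ∣ n → ∀ (E : Type) [Field E] [Fintype E] [DecidableEq E] [Algebra k E]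
        (χ : MulChar E ℂ), Fintype.card E = Nat.card k ^ orderOf (Nat.card k : ZMod e) →
        orderOf χ = e → (jac n 1 χ = (Fintype.card E : ℂ) ^ i ↔ A e)) →
      meromorphicOrderAt (fun s : ℂ => L.eval ((Nat.card k : ℂ) ^ (-s))) i =
        ((∑ e ∈ d.divisors with ¬ e ∣ n ∧ A e,
          Nat.totient e / orderOf (Nat.card k : ZMod e) : ℕ) : ℤ) := by
  classical
  letI : Fintype k := Fintype.ofFinite k
  set q := Nat.card k with hqdef
  have hq : 1 < q := Finite.one_lt_card
  let S : Finset ℕ := d.divisors.filter (fun e => ¬ e ∣ n)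
  have hS : ∀ e ∈ S, e ∣ d ∧ ¬ e ∣ n := by
    intro e he
    rw [mem_filter, Nat.mem_divisors] at he
    exact ⟨he.1.1, he.2⟩
  have hpos : ∀ e ∈ S, 0 < e := fun e he => Nat.pos_of_dvd_of_pos (hS e he).1 (by omega)
  have hcope : ∀ e ∈ S, Nat.Coprime q e := fun e he => hcop.coprime_dvd_right (hS e he).1
  let o : ℕ → ℕ := fun e => orderOf (q : ZMod e)
  have ho : ∀ e ∈ S, 0 < o e := fun e he => orderOf_pos_dvd' (hpos e he) (hcope e he)
  have hdata := fun (e : ℕ) (he : e ∈ S) =>
    all_levels (k := k) n e hn (hpos e he) (hS e he).2 (hcope e he)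
  choose! c γ hc hγ hsumE using hdata
  let L : ℂ[X] := ∏ e ∈ S, ∏ a ∈ range (c e), fct (γ e a) (o e)
  have hHID : HID L (fun m => ∑ e ∈ S, ∑ a ∈ range (c e), fctS (γ e a) (o e) m) := by
    refine HID.prod S _ _ fun e he => ?_
    exact HID.prod (range (c e)) _ _ fun a _ => fct_HID _ _ (ho e he)
  have hsum : ∀ r, 0 < r → traceSum k n d r =
      ∑ e ∈ S, ∑ a ∈ range (c e), fctS (γ e a) (o e) r := by
    intro r hr
    obtain ⟨E, _, _, _, hE⟩ := exists_ext k r hr
    rw [traceSum_eq hr hE n d hn]
    have h1 : ∀ χ ∈ univ.filter (fun χ : MulChar E ℂ => χ ^ d = 1 ∧ χ ^ n ≠ 1),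
        orderOf χ ∈ S := by
      intro χ hχ
      rw [mem_filter] at hχ
      rw [mem_filter, Nat.mem_divisors]
      refine ⟨⟨orderOf_dvd_of_pow_eq_one hχ.2.1, hd0⟩, fun h => hχ.2.2 ?_⟩
      exact orderOf_dvd_iff_pow_eq_one.1 h
    rw [← sum_fiberwise_of_maps_to h1, ← sum_neg_distrib]
    refine sum_congr rfl fun e he => ?_
    have h2 : (univ.filter (fun χ : MulChar E ℂ => χ ^ d = 1 ∧ χ ^ n ≠ 1)).filter
        (fun χ => orderOf χ = e) = univ.filter (fun χ : MulChar E ℂ => orderOf χ = e) := by
      ext χ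
      simp only [mem_filter, mem_univ, true_and]
      constructor
      · rintro ⟨_, h⟩
        exact h
      · intro h
        refine ⟨⟨?_, ?_⟩, h⟩
        · rw [← orderOf_dvd_iff_pow_eq_one, h]
          exact (hS e he).1
        · rw [Ne, ← orderOf_dvd_iff_pow_eq_one, h]
          exact (hS e he).2
    rw [h2, hsumE e he r hr E hE]
    unfold fctS
    by_cases h3 : o e ∣ r
    · rw [if_pos h3, mul_sum, ← sum_neg_distrib]
      refine sum_congr rfl fun a _ => ?_
      rw [if_pos h3]
    · rw [if_neg h3, neg_zero]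
      symm
      refine sum_eq_zero fun a _ => ?_
      rw [if_neg h3]
  refine ⟨L, ⟨?_, ?_⟩, ?_⟩
  · rw [coeff_zero_prod]
    refine prod_eq_one fun e he => ?_
    rw [coeff_zero_prod]
    exact prod_eq_one fun a _ => fct_coeff_zero _ _ (ho e he)
  · rw [(HID.iff _ _).1 hHID]
    congr 2
    funext r
    split_ifs with h0
    · rfl
    · exact (hsum r (Nat.pos_of_ne_zero h0)).symm
  · intro i A _ hA
    have hval : ∀ e ∈ S, ∀ a ∈ range (c e), (γ e a = (q : ℂ) ^ (o e * i) ↔ A e) := by
      intro e he a ha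
      obtain ⟨E, _, _, _, _, χ, h4, h5, h6⟩ := hγ e he a (mem_range.1 ha)
      have h7 := hA e (hS e he).1 (hS e he).2 E χ h4 h5
      rw [h6, h4] at h7
      push_cast at h7
      rw [← pow_mul] at h7
      exact h7
    have hcc : ∀ e ∈ S, c e = Nat.totient e / o e := by
      intro e he
      rw [hc e he]
      exact (Nat.mul_div_cancel_left _ (ho e he)).symm
    have hin : ∀ e ∈ S, MeromorphicAt (fun s : ℂ =>
        (∏ a ∈ range (c e), fct (γ e a) (o e)).eval ((q : ℂ) ^ (-s))) i ∧
        meromorphicOrderAt (fun s : ℂ =>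
          (∏ a ∈ range (c e), fct (γ e a) (o e)).eval ((q : ℂ) ^ (-s))) i =
          ((if A e then Nat.totient e / o e else 0 : ℕ) : ℤ) := by
      intro e he
      obtain ⟨h8, h9⟩ := order_prod (range (c e)) (fun a => fct (γ e a) (o e)) q i
        (fun _ => if A e then 1 else 0)
        (fun a _ => (order_fct q hq (γ e a) (o e) (ho e he) i).1)
        (fun a ha => by
          rw [(order_fct q hq (γ e a) (o e) (ho e he) i).2]
          by_cases h10 : A e
          · rw [if_pos ((hval e he a ha).2 h10), if_pos h10]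
            rfl
          · rw [if_neg (fun h => h10 ((hval e he a ha).1 h)), if_neg h10]
            rfl)
      refine ⟨h8, ?_⟩
      rw [h9, sum_const, card_range, smul_eq_mul, hcc e he]
      by_cases h10 : A e
      · rw [if_pos h10, if_pos h10, mul_one]
      · rw [if_neg h10, if_neg h10, mul_zero]
    obtain ⟨_, h11⟩ := order_prod S (fun e => ∏ a ∈ range (c e), fct (γ e a) (o e)) q i
      (fun e => if A e then Nat.totient e / o e else 0)
      (fun e he => (hin e he).1) (fun e he => (hin e he).2)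
    rw [h11, ← sum_filter, filter_filter]

end Pool.Agent.Y145.DI
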