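import Mathlib

/-!
# Representatives of free orbits
-/

set_option autoImplicit false

namespace Pool.Agent.Y145.DI

open Finset

theorem exists_reps {α : Type} [DecidableEq α] (σ : α → α) (o : ℕ) (ho : 0 < o) :
    ∀ X : Finset α, (∀ x ∈ X, σ x ∈ X) → (∀ x ∈ X, σ^[o] x = x) →
      (∀ x ∈ X, ∀ s, 0 < s → s < o → σ^[s] x ≠ x) →
      ∃ R ⊆ X, X.card = o * R.card ∧
        ∀ F : α → ℂ, (∀ x ∈ X, F (σ x) = F x) → ∑ x ∈ X, F x = o * ∑ x ∈ R, F x := by
  intro X
  induction X using Finset.strongInduction with
  | H X ih =>
    intro h1 h2 h3
    rcases X.eq_empty_or_nonempty with rfl | ⟨x, hx⟩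
    · exact ⟨∅, subset_rfl, by simp, fun F _ => by simp⟩
    · have hit : ∀ s, σ^[s] x ∈ X := by
        intro s
        induction s with
        | zero => exact hx
        | succ s ihs =>
          rw [Function.iterate_succ_apply']
          exact h1 _ ihs
      have hper : ∀ s, σ^[s + o] x = σ^[s] x := by
        intro s
        rw [Function.iterate_add_apply, h2 x hx]
      have hmod : ∀ s, σ^[s % o] x = σ^[s] x := by
        intro s
        induction s using Nat.strong_induction_on with
        | _ s ihs =>
          by_cases h : s < o
          · rw [Nat.mod_eq_of_lt h]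
          · have h4 : s = (s - o) + o := by omega
            rw [h4, hper, Nat.add_mod_right]
            exact ihs _ (by omega)
      let O : Finset α := (range o).image fun s => σ^[s] x
      have hO : ∀ s, σ^[s] x ∈ O := fun s =>
        mem_image.2 ⟨s % o, mem_range.2 (Nat.mod_lt _ ho), hmod s⟩
      have hOX : O ⊆ X := by
        intro y hy
        obtain ⟨s, _, rfl⟩ := mem_image.1 hy
        exact hit s
      have hinj : Set.InjOn (fun s => σ^[s] x) (range o : Finset ℕ) := by
        have hlt : ∀ s t, s < t → t < o → σ^[s] x ≠ σ^[t] x := by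
          intro s t hst hto h
          have h5 : σ^[o - t] (σ^[s] x) = σ^[o - t] (σ^[t] x) := by rw [h]
          rw [← Function.iterate_add_apply, ← Function.iterate_add_apply,
            Nat.sub_add_cancel hto.le, h2 x hx] at h5
          exact h3 x hx (o - t + s) (by omega) (by omega) h5
        intro s hs t ht h
        rw [Finset.mem_coe, mem_range] at hs ht
        rcases lt_trichotomy s t with h6 | h6 | h6
        · exact absurd h (hlt s t h6 ht)
        · exact h6
        · exact absurd h.symm (hlt t s h6 hs)
      have hcO : O.card = o := by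
        rw [card_image_of_injOn hinj, card_range]
      have hss : X \ O ⊂ X := by
        refine sdiff_ssubset hOX ⟨x, ?_⟩
        exact hO 0
      have hcl : ∀ y ∈ X \ O, σ y ∈ X \ O := by
        intro y hy
        rw [mem_sdiff] at hy ⊢
        refine ⟨h1 y hy.1, fun h => hy.2 ?_⟩
        obtain ⟨s, _, hs⟩ := mem_image.1 h
        have h7 : y = σ^[o - 1 + s] x := by
          rw [Function.iterate_add_apply, hs, ← Function.iterate_succ_apply,
            Nat.succ_eq_add_one, Nat.sub_one_add_one_eq_of_pos ho, h2 y hy.1]
        rw [h7]
        exact hO _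
      obtain ⟨R, hRX, hRc, hRF⟩ := ih (X \ O) hss hcl
        (fun y hy => h2 y (mem_sdiff.1 hy).1) (fun y hy => h3 y (mem_sdiff.1 hy).1)
      have hxR : x ∉ R := fun h => (mem_sdiff.1 (hRX h)).2 (hO 0)
      refine ⟨insert x R, ?_, ?_, ?_⟩
      · intro y hy
        rcases mem_insert.1 hy with rfl | hy
        · exact hx
        · exact (mem_sdiff.1 (hRX hy)).1
      · rw [card_insert_of_notMem hxR, mul_add, mul_one, ← hRc, card_sdiff_of_subset hOX, hcO]
        have := card_le_card hOX
        omega
      · intro F hF
        have hFs : ∀ s, F (σ^[s] x) = F x := by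
          intro s
          induction s with
          | zero => rfl
          | succ s ihs =>
            rw [Function.iterate_succ_apply', hF _ (hit s), ihs]
        rw [sum_insert hxR, mul_add, ← hRF F (fun y hy => hF y (mem_sdiff.1 hy).1),
          ← sum_sdiff hOX, add_comm]
        congr 1
        rw [sum_image hinj, sum_congr rfl fun s _ => hFs s, sum_const, card_range, nsmul_eq_mul]

end Pool.Agent.Y145.DI
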