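import Pool.Agent.Y145.DW.Ord
import Pool.Agent.Y145.DI.Reps

/-!
# Characters lifted by the norm, and their Jacobi sums
-/

set_option autoImplicit false
set_option linter.unusedSectionVars false
set_option linter.style.haveILetI false

namespace Pool.Agent.Y145.DI

open Finset Pool.Agent.Y145.KS Pool.Agent.Y145.DW

section Norm

variable {K F : Type} [Field K] [Fintype K] [DecidableEq K] [Field F] [Fintype F]
  [DecidableEq F] [Algebra K F]

/-- The lift of a character by the norm. -/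
noncomputable def nlift (F : Type) [Field F] [Fintype F] [Algebra K F] (χ : MulChar K ℂ) :
    MulChar F ℂ :=
  MulChar.ofUnitHom (χ.toUnitHom.comp (Units.map (Algebra.norm K (S := F))))

theorem nlift_apply (χ : MulChar K ℂ) (x : F) : nlift F χ x = χ (Algebra.norm K x) := by
  haveI : Module.Finite K F := Module.Finite.of_finite
  by_cases hx : x = 0
  · subst hx
    rw [MulChar.map_zero, Algebra.norm_zero, MulChar.map_zero]
  · have h1 : nlift F χ ((Units.mk0 x hx : Fˣ) : F) =
        (χ.toUnitHom.comp (Units.map (Algebra.norm K (S := F)))) (Units.mk0 x hx) :=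
      MulChar.ofUnitHom_coe _ _
    exact h1

theorem nlift_pow (χ : MulChar K ℂ) (m : ℕ) : nlift F χ ^ m = nlift F (χ ^ m) := by
  haveI : Module.Finite K F := Module.Finite.of_finite
  ext u
  rw [MulChar.pow_apply_coe, nlift_apply, nlift_apply, pow_apply' χ m]
  exact Algebra.norm_ne_zero_iff.2 u.ne_zero

theorem nlift_injective : Function.Injective (nlift F : MulChar K ℂ → MulChar F ℂ) := by
  haveI : Module.Finite K F := Module.Finite.of_finite
  intro χ χ' h
  ext u
  obtain ⟨x, hx⟩ := FiniteField.unitsMap_norm_surjective K F u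
  have h1 : (u : K) = Algebra.norm K (x : F) := by rw [← hx]; rfl
  rw [h1, ← nlift_apply, ← nlift_apply, h]

theorem nlift_one : nlift F (1 : MulChar K ℂ) = 1 := by
  haveI : Module.Finite K F := Module.Finite.of_finite
  ext u
  rw [nlift_apply, MulChar.one_apply_coe, MulChar.one_apply]
  exact (Algebra.norm_ne_zero_iff.2 u.ne_zero).isUnit

theorem orderOf_nlift (χ : MulChar K ℂ) : orderOf (nlift F χ) = orderOf χ := by
  apply Nat.dvd_antisymm
  · apply orderOf_dvd_of_pow_eq_one
    rw [nlift_pow, pow_orderOf_eq_one, nlift_one]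
  · apply orderOf_dvd_of_pow_eq_one
    apply nlift_injective (F := F)
    rw [← nlift_pow, pow_orderOf_eq_one, nlift_one]

theorem image_nlift (e : ℕ) (he : e ∣ Fintype.card K - 1) :
    (univ.filter fun χ : MulChar K ℂ => orderOf χ = e).image (nlift F) =
      univ.filter fun χ : MulChar F ℂ => orderOf χ = e := by
  ext χ
  rw [mem_image, mem_filter]
  constructor
  · rintro ⟨χ₀, h, rfl⟩
    rw [mem_filter] at h
    exact ⟨mem_univ _, by rw [orderOf_nlift]; exact h.2⟩
  · rintro ⟨_, h⟩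
    have h1 : χ ^ (Fintype.card K - 1) = 1 := by
      rw [← orderOf_dvd_iff_pow_eq_one, h]
      exact he
    obtain ⟨χ₀, hχ₀⟩ := exists_norm_chr (K := K) χ h1
    have h2 : nlift F χ₀ = χ := by
      ext u
      rw [nlift_apply, hχ₀]
    refine ⟨χ₀, ?_, h2⟩
    rw [mem_filter]
    exact ⟨mem_univ _, by rw [← orderOf_nlift (F := F) χ₀, h2, h]⟩

/-- The Jacobi sums of lifted characters. -/
theorem jac_nlift (n : ℕ) (hn : Odd n) (χ : MulChar K ℂ) (hχ : χ ^ n ≠ 1) :
    jac n 1 (nlift F χ) = jac n 1 χ ^ Module.finrank K F := by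
  haveI : Module.Finite K F := Module.Finite.of_finite
  set m := Module.finrank K F with hm
  have hm0 : 0 < m := Module.finrank_pos
  have hn0 : 0 < n := hn.pos
  let ψ : AddChar K ℂ := AddChar.FiniteField.primitiveChar_to_Complex K
  have hψ : ψ.IsPrimitive := AddChar.FiniteField.primitiveChar_to_Complex_isPrimitive K
  have hψ1 : ψ ≠ 1 := by
    have h3 := hψ one_ne_zero
    rwa [AddChar.mulShift_one] at h3
  have hψF : (psi ψ F).IsPrimitive := AddChar.IsPrimitive.of_ne_one (psi_ne_one hψ1 F)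
  have hg : ∀ ξ : MulChar K ℂ, gaussSum (nlift F ξ) (psi ψ F) =
      (-1) ^ (m - 1) * gaussSum ξ ψ ^ m := by
    intro ξ
    rw [hm, ← hasse_davenport ξ hψ1]
    unfold gaussSum
    exact sum_congr rfl fun x _ => by rw [nlift_apply]
  have hFn : nlift F χ ^ n ≠ 1 := by
    rw [nlift_pow, ← nlift_one (K := K) (F := F)]
    exact fun h => hχ (nlift_injective h)
  have h1 := jac_of_pow_ne n hn0 hFn hψF
  have h2 := jac_of_pow_ne n hn0 hχ hψ
  rw [nlift_pow, hg, hg] at h1
  have h3 : gaussSum (χ ^ n) ψ ≠ 0 :=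
    gaussSum_ne_zero_of_nontrivial (by exact_mod_cast Fintype.card_ne_zero) hχ hψ
  have hs : ((-1 : ℂ) ^ (m - 1)) ^ n = (-1) ^ (m - 1) := by
    obtain ⟨c, rfl⟩ := hn
    rw [← pow_mul, mul_comm, pow_mul, pow_succ, pow_mul, neg_one_sq, one_pow, one_mul]
  have h4 : (-1 : ℂ) ^ (m - 1) * gaussSum (χ ^ n) ψ ^ m ≠ 0 :=
    mul_ne_zero (pow_ne_zero _ (by norm_num)) (pow_ne_zero _ h3)
  apply mul_right_cancel₀ h4
  rw [h1, mul_pow, hs]
  have h5 : (gaussSum χ ψ ^ m) ^ n = jac n 1 χ ^ m * gaussSum (χ ^ n) ψ ^ m := by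
    rw [← mul_pow, h2, ← pow_mul, ← pow_mul, mul_comm]
  rw [h5]
  ring

end Norm

section Frob

variable {k : Type} [Field k] [Finite k] {E : Type} [Field E] [Fintype E] [DecidableEq E]
  [Algebra k E]

/-- The Jacobi sums are invariant under Frobenius. -/
theorem jac_frob (n : ℕ) (χ : MulChar E ℂ) : jac n 1 (χ ^ Nat.card k) = jac n 1 χ := by
  classical
  letI : Fintype k := Fintype.ofFinite k
  haveI : Module.Finite k E := Module.Finite.of_finite
  let φ : E ≃ₐ[k] E := FiniteField.frobeniusAlgEquivOfAlgebraic k E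
  have hφ : ∀ x, φ x = x ^ Nat.card k := fun x => by
    rw [Nat.card_eq_fintype_card]
    rfl
  unfold jac
  refine sum_bijective (fun x : Fin n → E => fun j => φ (x j)) ?_ ?_ ?_
  · exact (Equiv.piCongrRight fun _ : Fin n => φ.toEquiv).bijective
  · intro x
    rw [mem_filter, mem_filter, ← map_sum]
    constructor
    · rintro ⟨_, h⟩
      exact ⟨mem_univ _, by rw [h, map_one]⟩
    · rintro ⟨_, h⟩
      exact ⟨mem_univ _, φ.injective (by rw [h, map_one])⟩
  · intro x _
    refine prod_congr rfl fun j _ => ?_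
    change (χ ^ Nat.card k) (x j) = χ (φ (x j))
    rw [hφ, map_pow]
    exact MulChar.pow_apply' χ (Nat.card_pos (α := k)).ne' (x j)

theorem iterate_pow_chr (χ : MulChar E ℂ) (q s : ℕ) :
    (fun ξ : MulChar E ℂ => ξ ^ q)^[s] χ = χ ^ q ^ s := by
  induction s with
  | zero => rw [Function.iterate_zero, id, pow_zero, pow_one]
  | succ s ih => rw [Function.iterate_succ_apply', ih, ← pow_mul, ← pow_succ]

/-- The values of the Jacobi sums of the characters of order `e`, up to Frobenius. -/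
theorem level_data (n e : ℕ) (hcop : Nat.Coprime (Nat.card k) e)
    (hE : Module.finrank k E = orderOf (Nat.card k : ZMod e)) :
    ∃ (c : ℕ) (γ : ℕ → ℂ), Nat.totient e = orderOf (Nat.card k : ZMod e) * c ∧
      (∀ a < c, ∃ χ : MulChar E ℂ, orderOf χ = e ∧ jac n 1 χ = γ a) ∧
      ∀ m : ℕ, ∑ χ ∈ univ.filter (fun χ : MulChar E ℂ => orderOf χ = e), jac n 1 χ ^ m =
        orderOf (Nat.card k : ZMod e) * ∑ a ∈ range c, γ a ^ m := by
  classical
  letI : Fintype k := Fintype.ofFinite k
  set q := Nat.card k with hq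
  set o := orderOf (q : ZMod e) with ho
  have hcE : Fintype.card E = q ^ o := by
    rw [Module.card_eq_pow_finrank (K := k) (V := E), hE, hq, Nat.card_eq_fintype_card]
  have hq1 : 1 < q := Finite.one_lt_card
  have ho0 : 0 < o := by
    rcases Nat.eq_zero_or_pos o with h | h
    · exfalso
      have h1 : Fintype.card E = 1 := by rw [hcE, h, pow_zero]
      have h2 : 1 < Fintype.card E := Fintype.one_lt_card
      omega
    · exact h
  have hdvd : ∀ r, e ∣ q ^ r - 1 ↔ o ∣ r := by
    intro r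
    rw [ho, orderOf_dvd_iff_pow_eq_one, ← ZMod.natCast_eq_zero_iff,
      Nat.cast_sub (Nat.one_le_pow _ _ (by omega))]
    push_cast
    rw [sub_eq_zero]
  let X : Finset (MulChar E ℂ) := univ.filter fun χ => orderOf χ = e
  have hX : ∀ χ ∈ X, orderOf χ = e := fun χ h => (mem_filter.1 h).2
  have h1 : ∀ χ ∈ X, (fun ξ : MulChar E ℂ => ξ ^ q) χ ∈ X := by
    intro χ hχ
    rw [mem_filter]
    refine ⟨mem_univ _, ?_⟩
    change orderOf (χ ^ q) = e
    rw [Nat.Coprime.orderOf_pow (by rw [hX χ hχ]; exact hcop.symm), hX χ hχ]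
  have hfix : ∀ χ ∈ X, ∀ s, (fun ξ : MulChar E ℂ => ξ ^ q)^[s] χ = χ ↔ o ∣ s := by
    intro χ hχ s
    rw [iterate_pow_chr, ← hdvd s, ← hX χ hχ, orderOf_dvd_iff_pow_eq_one]
    have h2 : χ ^ q ^ s = χ ^ (q ^ s - 1) * χ := by
      rw [← pow_succ, Nat.sub_add_cancel (Nat.one_le_pow _ _ (by omega))]
    rw [h2]
    constructor
    · intro h
      exact mul_eq_right.1 h
    · intro h
      rw [h, one_mul]
  obtain ⟨R, hRX, hRc, hRF⟩ := exists_reps (fun ξ : MulChar E ℂ => ξ ^ q) o ho0 X h1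
    (fun χ hχ => (hfix χ hχ o).2 dvd_rfl)
    (fun χ hχ s hs hso h => by
      have := Nat.le_of_dvd hs ((hfix χ hχ s).1 h)
      omega)
  refine ⟨R.card, fun a => if h : a < R.card then
    jac n 1 (R.equivFin.symm ⟨a, h⟩ : MulChar E ℂ) else 0, ?_, ?_, ?_⟩
  · rw [← hRc]
    have h3 := card_order (E := E) e
    rw [if_pos (by rw [hcE]; exact (hdvd o).2 dvd_rfl)] at h3
    exact h3.symm
  · intro a ha
    refine ⟨R.equivFin.symm ⟨a, ha⟩, hX _ (hRX (R.equivFin.symm ⟨a, ha⟩).2), ?_⟩
    beta_reduce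
    rw [dif_pos ha]
  · intro m
    rw [hRF (fun χ => jac n 1 χ ^ m) (fun χ _ => by rw [hq, jac_frob])]
    congr 1
    rw [sum_range, ← sum_coe_sort R (fun x => jac n 1 x ^ m),
      ← Equiv.sum_comp R.equivFin.symm (fun x => jac n 1 (x : MulChar E ℂ) ^ m)]
    refine sum_congr rfl fun a _ => ?_
    beta_reduce
    rw [dif_pos a.2]

end Frob

end Pool.Agent.Y145.DI
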