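import Pool.Agent.H916R2.OddChar

/-!
# Sums over residues against an odd character
-/

set_option autoImplicit false
set_option linter.style.haveILetI false

namespace Pool.Agent.Y145.DI

open Finset Pool.Agent.H916R2

/-- Multiplication by a number prime to `N` permutes the residues. -/
theorem sum_perm {N c : ℕ} (hN : 0 < N) (hc : Nat.Coprime c N) (f : ℕ → ℂ) :
    ∑ b ∈ range N, f ((c * b) % N) = ∑ b ∈ range N, f b := by
  have hinj : Set.InjOn (fun b => (c * b) % N) (range N : Finset ℕ) := by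
    intro a ha b hb h
    rw [Finset.mem_coe, mem_range] at ha hb
    have h1 : c * a ≡ c * b [MOD N] := h
    have h2 := Nat.ModEq.cancel_left_of_coprime (by rw [Nat.gcd_comm]; exact hc) h1
    exact Nat.ModEq.eq_of_lt_of_lt h2 ha hb
  have h2 : (range N).image (fun b => (c * b) % N) = range N := by
    apply eq_of_subset_of_card_le
    · intro x hx
      obtain ⟨b, _, rfl⟩ := mem_image.1 hx
      exact mem_range.2 (Nat.mod_lt _ hN)
    · rw [card_image_of_injOn hinj]
  rw [← sum_image (f := f) hinj, h2]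

theorem sum_range_mul (l : ℕ) (f : ℕ → ℂ) (M : ℕ) :
    ∑ b ∈ range (l * M), f b = ∑ k ∈ range M, ∑ a ∈ range l, f (l * k + a) := by
  induction M with
  | zero => simp
  | succ M ih =>
    rw [Nat.mul_succ, sum_range_add, ih, sum_range_succ]

variable {l : ℕ} [Fact l.Prime]

/-- The first moment of an odd character modulo a prime does not vanish. -/
theorem moment_ne_zero (χ : DirichletCharacter ℂ l) (hχ : χ.Odd) :
    ∑ a ∈ range l, χ (a : ZMod l) * a ≠ 0 := by
  have hl : l.Prime := Fact.out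
  haveI : NeZero l := ⟨hl.ne_zero⟩
  obtain ⟨a, ha⟩ := exists_SS_ne_zero χ hχ
  have hχ1 : χ ≠ 1 := by
    rintro rfl
    have h1 : (1 : DirichletCharacter ℂ l) (-1) = -1 := hχ
    rw [MulChar.one_apply isUnit_one.neg] at h1
    norm_num at h1
  have ha0 : a ≠ 0 := by
    rintro rfl
    apply ha
    unfold SS
    simp [saw_zero]
  have h1 : SS χ a = χ a⁻¹ * ∑ t : (ZMod l)ˣ, χ t * (saw (t : ZMod l) : ℂ) := by
    unfold SS
    rw [mul_sum]
    rw [← Equiv.sum_comp (Equiv.mulRight (Units.mk0 a ha0)⁻¹)]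
    refine sum_congr rfl fun t _ => ?_
    rw [Equiv.coe_mulRight, Units.val_mul, map_mul, Units.val_inv_eq_inv_val, Units.val_mk0,
      mul_assoc ((t : ZMod l)), inv_mul_cancel₀ ha0, mul_one]
    ring
  have h2 : ∑ t : (ZMod l)ˣ, χ t * (saw (t : ZMod l) : ℂ) =
      2 * ∑ a ∈ range l, χ (a : ZMod l) * a := by
    have h3 : ∑ t : (ZMod l)ˣ, χ t * (saw (t : ZMod l) : ℂ) =
        ∑ x : ZMod l, χ x * (saw x : ℂ) := by
      have h4 : ∀ x : ZMod l, x ∉ (univ : Finset (ZMod l)ˣ).map ⟨Units.val,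
          Units.val_injective⟩ → χ x * (saw x : ℂ) = 0 := by
        intro x hx
        have h5 : ¬ IsUnit x := by
          rintro ⟨u, rfl⟩
          exact hx (mem_map.2 ⟨u, mem_univ _, rfl⟩)
        rw [MulChar.map_nonunit χ h5, zero_mul]
      rw [← sum_subset (subset_univ ((univ : Finset (ZMod l)ˣ).map ⟨Units.val,
          Units.val_injective⟩)) fun x _ hx => h4 x hx, sum_map]
      rfl
    rw [h3]
    have h5 : ∀ x : ZMod l, χ x * (saw x : ℂ) = 2 * (χ x * (x.val : ℂ)) - l * χ x := by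
      intro x
      unfold saw
      by_cases hx : x = 0
      · rw [if_pos hx, hx, MulChar.map_zero]
        simp
      · rw [if_neg hx]
        push_cast
        ring
    rw [sum_congr rfl fun x _ => h5 x, sum_sub_distrib, ← mul_sum, ← mul_sum,
      MulChar.sum_eq_zero_of_ne_one hχ1, mul_zero, sub_zero]
    congr 1
    symm
    refine sum_nbij' (fun a => (a : ZMod l)) (fun x => x.val) ?_ ?_ ?_ ?_ ?_
    · intro a _
      exact mem_univ _
    · intro x _
      exact mem_range.2 (ZMod.val_lt x)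
    · intro a ha
      exact ZMod.val_cast_of_lt (mem_range.1 ha)
    · intro x _
      exact ZMod.natCast_zmod_val x
    · intro a ha
      rw [ZMod.val_cast_of_lt (mem_range.1 ha)]
  intro h
  apply ha
  rw [h1, h2, h, mul_zero, mul_zero]

theorem moment_pow (χ : DirichletCharacter ℂ l) (hχ : χ ≠ 1) (j : ℕ) :
    ∑ b ∈ range (l ^ (j + 1)), χ (b : ZMod l) * b =
      (l : ℂ) ^ j * ∑ a ∈ range l, χ (a : ZMod l) * a := by
  have hl : l.Prime := Fact.out
  haveI : NeZero l := ⟨hl.ne_zero⟩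
  have h0 : ∑ a ∈ range l, χ (a : ZMod l) = 0 := by
    rw [← MulChar.sum_eq_zero_of_ne_one hχ]
    refine sum_nbij' (fun a => (a : ZMod l)) (fun x => x.val) ?_ ?_ ?_ ?_ ?_
    · intro a _
      exact mem_univ _
    · intro x _
      exact mem_range.2 (ZMod.val_lt x)
    · intro a ha
      exact ZMod.val_cast_of_lt (mem_range.1 ha)
    · intro x _
      exact ZMod.natCast_zmod_val x
    · intro a _
      rfl
  rw [pow_succ, mul_comm (l ^ j) l, sum_range_mul]
  have h1 : ∀ k : ℕ, ∑ a ∈ range l, χ ((l * k + a : ℕ) : ZMod l) * ((l * k + a : ℕ) : ℂ) =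
      ∑ a ∈ range l, χ (a : ZMod l) * a := by
    intro k
    have h2 : ∀ a ∈ range l, χ ((l * k + a : ℕ) : ZMod l) * ((l * k + a : ℕ) : ℂ) =
        (l : ℂ) * k * χ (a : ZMod l) + χ (a : ZMod l) * a := by
      intro a _
      push_cast
      rw [ZMod.natCast_self, zero_mul, zero_add]
      ring
    rw [sum_congr rfl h2, sum_add_distrib, ← mul_sum, h0, mul_zero, zero_add]
  rw [sum_congr rfl fun k _ => h1 k, sum_const, card_range, nsmul_eq_mul]
  push_cast
  rfl

/-- Existence of an odd character trivial at `p`. -/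
theorem exists_odd {p : ℕ} (hpl : Nat.Coprime p l) (h : ∀ ν : ℕ, ¬ l ∣ p ^ ν + 1) :
    ∃ χ : DirichletCharacter ℂ l, χ.Odd ∧ χ (p : ZMod l) = 1 := by
  classical
  have hl : l.Prime := Fact.out
  haveI : NeZero l := ⟨hl.ne_zero⟩
  let u : (ZMod l)ˣ := ZMod.unitOfCoprime p hpl
  let H : Subgroup (ZMod l)ˣ := Subgroup.zpowers u
  have h1 : (-1 : (ZMod l)ˣ) ∉ H := by
    intro h2
    obtain ⟨ν, hν⟩ := mem_powers_iff_mem_zpowers.2 h2
    apply h ν
    have h3 := congrArg (fun v : (ZMod l)ˣ => (v : ZMod l)) hν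
    simp only [Units.val_pow_eq_pow_val, Units.val_neg, Units.val_one] at h3
    rw [ZMod.coe_unitOfCoprime] at h3
    rw [← ZMod.natCast_eq_zero_iff]
    push_cast
    rw [h3]
    ring
  have h2 : (QuotientGroup.mk (-1 : (ZMod l)ˣ) : (ZMod l)ˣ ⧸ H) ≠ 1 := by
    intro h3
    exact h1 ((QuotientGroup.eq_one_iff _).1 h3)
  haveI : HasEnoughRootsOfUnity ℂ (Monoid.exponent ((ZMod l)ˣ ⧸ H)) := by
    infer_instance
  obtain ⟨φ, hφ⟩ := CommGroup.exists_apply_ne_one_of_hasEnoughRootsOfUnity ((ZMod l)ˣ ⧸ H) ℂ h2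
  let f : (ZMod l)ˣ →* ℂˣ := φ.comp (QuotientGroup.mk' H)
  refine ⟨MulChar.ofUnitHom f, ?_, ?_⟩
  · have h3 : MulChar.ofUnitHom f (-1 : ZMod l) = f (-1) := MulChar.ofUnitHom_coe f (-1)
    have h4 : (f (-1) : ℂ) ^ 2 = 1 := by
      rw [← Units.val_pow_eq_pow_val, ← map_pow, neg_one_sq, map_one, Units.val_one]
    have h5 : (f (-1) : ℂ) ≠ 1 := by
      intro h6
      exact hφ (Units.ext h6)
    rw [sq] at h4
    change MulChar.ofUnitHom f (-1 : ZMod l) = -1
    rw [h3]
    rcases mul_self_eq_one_iff.1 h4 with h6 | h6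
    · exact absurd h6 h5
    · exact h6
  · have h3 : MulChar.ofUnitHom f (p : ZMod l) = f u := MulChar.ofUnitHom_coe f u
    have h4 : (QuotientGroup.mk' H u) = 1 :=
      (QuotientGroup.eq_one_iff _).2 (Subgroup.mem_zpowers u)
    rw [h3]
    change ((φ (QuotientGroup.mk' H u) : ℂˣ) : ℂ) = 1
    rw [h4, map_one, Units.val_one]

end Pool.Agent.Y145.DI
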