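import Pool.Agent.Y145.DI.Stick
import Pool.Agent.Y145.DI.Odd

/-!
# Jacobi sums that are not pure
-/

set_option autoImplicit false
set_option linter.unusedSectionVars false
set_option linter.style.haveILetI false

namespace Pool.Agent.Y145.DI

open Finset

variable {p l : ℕ} [Fact p.Prime] [Fact l.Prime]

theorem sum_range_chr (χ : DirichletCharacter ℂ l) (hχ : χ ≠ 1) (j : ℕ) :
    ∑ b ∈ range (l ^ (j + 1)), χ (b : ZMod l) = 0 := by
  have hl : l.Prime := Fact.out
  haveI : NeZero l := ⟨hl.ne_zero⟩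
  have h0 : ∑ a ∈ range l, χ (a : ZMod l) = 0 := by
    rw [← MulChar.sum_eq_zero_of_ne_one hχ]
    refine sum_nbij' (fun a => (a : ZMod l)) (fun x => x.val) ?_ ?_ ?_ ?_ ?_
    · intro a _
      exact mem_univ _
    · intro x _
      exact mem_range.2 (ZMod.val_lt x)
    · intro a ha
      exact ZMod.val_cast_of_lt (mem_range.1 ha)
    · intro x _
      exact ZMod.natCast_zmod_val x
    · intro a _
      rfl
  rw [pow_succ, mul_comm (l ^ j) l, sum_range_mul]
  refine sum_eq_zero fun k _ => ?_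
  rw [← h0]
  refine sum_congr rfl fun a _ => ?_
  congr 1
  push_cast
  rw [ZMod.natCast_self, zero_mul, zero_add]

theorem chr_mod (χ : DirichletCharacter ℂ l) (j c b : ℕ) :
    χ (((c * b) % l ^ (j + 1) : ℕ) : ZMod l) = χ (c : ZMod l) * χ (b : ZMod l) := by
  rw [← map_mul, ← Nat.cast_mul]
  congr 1
  rw [ZMod.natCast_eq_natCast_iff]
  exact (Nat.mod_modEq (c * b) (l ^ (j + 1))).of_dvd (dvd_pow_self l (Nat.succ_ne_zero j))

/-- The contradiction with the nonvanishing of the first moments. -/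
theorem no_relation (hpl : Nat.Coprime p l) (hp : ∀ ν : ℕ, ¬ l ∣ p ^ ν + 1) (n F C j : ℕ)
    (hn : 1 < n) (hln : Nat.Coprime n l) (hF : 0 < F)
    (h : ∀ b < l ^ (j + 1), ¬ l ∣ b →
      C + expo p (l ^ (j + 1)) F ((n * b) % l ^ (j + 1)) = n * expo p (l ^ (j + 1)) F b) :
    False := by
  have hl : l.Prime := Fact.out
  haveI : NeZero l := ⟨hl.ne_zero⟩
  obtain ⟨χ, hodd, hχp⟩ := exists_odd hpl hp
  have hχ1 : χ ≠ 1 := by
    rintro rfl
    have h1 : (1 : DirichletCharacter ℂ l) (-1) = -1 := hodd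
    rw [MulChar.one_apply isUnit_one.neg] at h1
    norm_num at h1
  set N := l ^ (j + 1) with hN
  have hN0 : 0 < N := pow_pos hl.pos _
  set V : ℂ := ∑ b ∈ range N, χ (b : ZMod l) * b with hV
  have hV0 : V ≠ 0 := by
    rw [hV, hN, moment_pow χ hχ1 j]
    exact mul_ne_zero (pow_ne_zero _ (by exact_mod_cast hl.ne_zero)) (moment_ne_zero χ hodd)
  have hS1 : ∑ b ∈ range N, χ (b : ZMod l) * (expo p N F b : ℂ) = F * V := by
    unfold expo
    push_cast
    simp only [mul_sum]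
    rw [sum_comm]
    have h1 : ∀ s ∈ range F, ∑ b ∈ range N, χ (b : ZMod l) * (((b * p ^ s) % N : ℕ) : ℂ) = V := by
      intro s _
      rw [hV, ← sum_perm hN0 (c := p ^ s) (by rw [hN]; exact Nat.Coprime.pow _ _ hpl)
        (fun b => χ (b : ZMod l) * b)]
      refine sum_congr rfl fun b _ => ?_
      rw [hN, chr_mod]
      push_cast
      rw [map_pow, hχp, one_pow, one_mul, mul_comm (p ^ s) b]
    rw [sum_congr rfl h1, sum_const, card_range, nsmul_eq_mul]
  set S2 : ℂ := ∑ b ∈ range N, χ (b : ZMod l) * (expo p N F ((n * b) % N) : ℂ) with hS2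
  have h2 : χ (n : ZMod l) * S2 = F * V := by
    rw [← hS1, ← sum_perm hN0 (c := n) (by rw [hN]; exact Nat.Coprime.pow_right _ hln)
        (fun b => χ (b : ZMod l) * (expo p N F b : ℂ)), hS2, mul_sum]
    refine sum_congr rfl fun b _ => ?_
    rw [hN, chr_mod]
    ring
  have h3 : S2 = n * (F * V) := by
    rw [← hS1, hS2, mul_sum]
    have h4 : ∀ b ∈ range N, χ (b : ZMod l) * (expo p N F ((n * b) % N) : ℂ) =
        (n : ℂ) * (χ (b : ZMod l) * (expo p N F b : ℂ)) - (C : ℂ) * χ (b : ZMod l) := by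
      intro b hb
      by_cases hlb : l ∣ b
      · rw [(ZMod.natCast_eq_zero_iff b l).2 hlb, MulChar.map_zero]
        ring
      · have h5 := h b (mem_range.1 hb) hlb
        have h6 : (C : ℂ) + (expo p N F ((n * b) % N) : ℂ) = (n : ℂ) * (expo p N F b : ℂ) := by
          exact_mod_cast h5
        linear_combination χ (b : ZMod l) * h6
    have h7 : ∑ b ∈ range N, (C : ℂ) * χ (b : ZMod l) = 0 := by
      rw [← mul_sum, hN, sum_range_chr χ hχ1, mul_zero]
    rw [sum_congr rfl h4, sum_sub_distrib, h7, sub_zero]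
  have hF0 : (F : ℂ) ≠ 0 := by exact_mod_cast hF.ne'
  have h4 : χ (n : ZMod l) * n = 1 := by
    rw [h3] at h2
    have h5 : (F : ℂ) * V ≠ 0 := mul_ne_zero hF0 hV0
    apply mul_right_cancel₀ h5
    linear_combination h2
  have h5 := congrArg norm h4
  rw [norm_mul, norm_one] at h5
  have h6 : ‖χ (n : ZMod l)‖ = 1 := by
    have h7 : (n : ZMod l) = ((ZMod.unitOfCoprime n hln : (ZMod l)ˣ) : ZMod l) :=
      (ZMod.coe_unitOfCoprime n hln).symm
    rw [h7]
    exact DirichletCharacter.unit_norm_eq_one χ _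
  rw [h6, one_mul] at h5
  have h7 : ‖((n : ℕ) : ℂ)‖ = n := by simp
  rw [h7] at h5
  have h8 : n = 1 := by exact_mod_cast h5
  omega

/-- The Jacobi sums of characters of order a power of `l` are not pure when `-1` is not a power of
`p` modulo `l`. -/
theorem jacG_ne {E : Type} [Field E] [Fintype E] [DecidableEq E] [CharP E p]
    (hp : ∀ ν : ℕ, ¬ l ∣ p ^ ν + 1) (n i j : ℕ) (hn : 1 < n) (hln : Nat.Coprime n l)
    (χ : MulChar E ℂ) (hχ : orderOf χ = l ^ (j + 1)) :
    jacG n 1 χ ≠ (Fintype.card E : ℂ) ^ i := by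
  intro hJ
  have hl : l.Prime := Fact.out
  have hpp : p.Prime := Fact.out
  obtain ⟨F', hF', hcard⟩ := FiniteField.card E p
  set F : ℕ := (F' : ℕ) with hFdef
  have hF0 : 0 < F := F'.pos
  set N := l ^ (j + 1) with hN
  have hl1 := hl.one_lt
  have hN1 : 1 < N := Nat.one_lt_pow (Nat.succ_ne_zero j) hl1
  have hNd : N ∣ Fintype.card E - 1 := by
    rw [← hχ]
    exact χ.orderOf_dvd_card_sub_one
  have hQ1 : 1 < Fintype.card E := Fintype.one_lt_card
  have hpl : Nat.Coprime p l := by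
    rw [Nat.coprime_primes hpp hl]
    rintro rfl
    have h8 : p ∣ Fintype.card E - 1 := (dvd_pow_self p (Nat.succ_ne_zero j)).trans hNd
    have h9 : p ∣ Fintype.card E := by
      rw [hcard]
      exact dvd_pow_self p hF0.ne'
    have h10 : p ∣ 1 := (Nat.dvd_sub_iff_right hQ1.le h9).1 h8
    exact hpp.one_lt.ne' (Nat.dvd_one.1 h10)
  obtain ⟨w, ψ, hψ, hψc, hw, ho⟩ := exists_wp (p := p) E
  obtain ⟨hp0, hp1⟩ := norm_p_lt (p := p)
  set T := w ^ ((Fintype.card E - 1) / N) with hT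
  have hTo : orderOf T = N := by
    have hd : (Fintype.card E - 1) / N ≠ 0 := by
      have := Nat.div_pos (Nat.le_of_dvd (by omega) hNd) (by omega : 0 < N)
      omega
    rw [hT, orderOf_pow_of_dvd hd (by rw [ho]; exact Nat.div_dvd_of_dvd hNd), ho,
      Nat.div_div_self hNd (by omega)]
  have hTN : T ^ N = 1 := by rw [← hTo, pow_orderOf_eq_one]
  refine no_relation hpl hp n F (F * i * N) j hn hln hF0 ?_
  intro b hb hlb
  have hb0 : 0 < b := Nat.pos_of_ne_zero fun h => hlb (by rw [h]; exact dvd_zero l)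
  have hcopb : Nat.Coprime b N := by
    rw [hN]
    apply Nat.Coprime.pow_right
    exact ((Nat.Prime.coprime_iff_not_dvd hl).2 hlb).symm
  have hob : orderOf (T ^ b)⁻¹ = N := by
    rw [orderOf_inv, Nat.Coprime.orderOf_pow (by rw [hTo]; exact hcopb.symm), hTo]
  have h1 : jacG n 1 (T ^ b)⁻¹ = (((Fintype.card E : ℤ) ^ i : ℤ) : PadicAlgCl p) := by
    refine transfer n 1 χ (T ^ b)⁻¹ N (by omega) hχ hob _ ?_
    rw [hJ]
    push_cast
    rfl
  have hcopn : Nat.Coprime n N := by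
    rw [hN]
    exact Nat.Coprime.pow_right _ hln
  have hpow : ((T ^ b)⁻¹) ^ n = (T ^ ((n * b) % N))⁻¹ := by
    rw [inv_pow, ← pow_mul, mul_comm b n, ← pow_mod_orderOf T (n * b), hTo]
  have hm0 : 0 < (n * b) % N := by
    rw [Nat.pos_iff_ne_zero]
    intro h2
    have h3 := hcopn.symm.dvd_of_dvd_mul_left (Nat.dvd_of_mod_eq_zero h2)
    exact absurd (Nat.le_of_dvd hb0 h3) (by omega)
  have hmN : (n * b) % N < N := Nat.mod_lt _ (by omega)
  have hne : ((T ^ b)⁻¹) ^ n ≠ 1 := by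
    intro h2
    have h3 := orderOf_dvd_of_pow_eq_one h2
    rw [hob] at h3
    have h4 := Nat.Coprime.eq_one_of_dvd hcopn.symm h3
    omega
  have h2 := jacG_mul n (by omega) hne hψ
  rw [h1, hpow] at h2
  have h3 := congrArg (fun z : PadicAlgCl p => ‖z‖ ^ N) h2
  simp only [norm_mul, norm_pow, mul_pow] at h3
  have h4 := norm_gauss_eq w ψ hψ hψc hw ho hcard hNd hF0 _ hm0 hmN
  have h5 := norm_gauss_eq w ψ hψ hψc hw ho hcard hNd hF0 b hb0 hb
  rw [← hT] at h4 h5
  rw [h4, ← pow_mul, mul_comm n N, pow_mul, h5] at h3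
  have h6 : ‖(((Fintype.card E : ℤ) ^ i : ℤ) : PadicAlgCl p)‖ =
      ‖((p : ℕ) : PadicAlgCl p)‖ ^ (F * i) := by
    rw [hcard]
    push_cast
    rw [norm_pow, norm_pow, ← pow_mul]
  rw [h6, ← pow_mul, ← pow_mul, ← pow_add] at h3
  have h7 := (pow_right_strictAnti₀ hp0 hp1).injective h3
  rw [h7, mul_comm n]

end Pool.Agent.Y145.DI
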