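import Pool.Agent.Y145.DI.LPol
import Pool.Agent.Y145.DI.Non

/-!
# The dichotomy in Kummer towers
-/

set_option autoImplicit false
set_option linter.unusedSectionVars false
set_option linter.style.haveILetI false

namespace Pool.Agent.Y145.DI

open Polynomial Finset Pool.Agent.Y145.KS Pool.Agent.Y145.DW

theorem lift_neg_one {p l ν : ℕ} (hl : l.Prime) (hl2 : l ≠ 2) (h : l ∣ p ^ ν + 1) (j : ℕ) :
    l ^ (j + 1) ∣ p ^ (ν * l ^ j) + 1 := by
  induction j with
  | zero => simpa using h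
  | succ j ih =>
    have hodd : Odd l := hl.odd_of_ne_two hl2
    set x : ℤ := (p : ℤ) ^ (ν * l ^ j) with hx
    have h1 : ((l : ℤ) ^ (j + 1)) ∣ x - (-1) := by
      rw [sub_neg_eq_add, hx]
      exact_mod_cast ih
    have h2 : (l : ℤ) ^ (j + 1 + 1) ∣ x ^ l - (-1) ^ l := by
      have h3 := dvd_sub_pow_of_dvd_sub (R := ℤ) (p := l) (a := x) (b := -1)
        (dvd_trans (dvd_pow_self _ (Nat.succ_ne_zero j)) h1) 1
      obtain ⟨y, hy⟩ := h1
      have hx' : x = -1 + (l : ℤ) ^ (j + 1) * y := by linear_combination hy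
      rw [← geom_sum₂_mul]
      rw [hy, pow_succ (l : ℤ) (j + 1), mul_comm ((l : ℤ) ^ (j + 1)) (l : ℤ)]
      have h4 : (l : ℤ) ∣ ∑ i ∈ range l, x ^ i * (-1) ^ (l - 1 - i) := by
        rw [← ZMod.intCast_zmod_eq_zero_iff_dvd] 
        push_cast
        have h5 : ((x : ℤ) : ZMod l) = -1 := by
          rw [hx']
          push_cast
          rw [ZMod.natCast_self, zero_pow (Nat.succ_ne_zero j), zero_mul, add_zero]
        rw [h5]
        have h6 : ∀ i ∈ range l, (-1 : ZMod l) ^ i * (-1) ^ (l - 1 - i) = (-1) ^ (l - 1) := by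
          intro i hi
          rw [← pow_add]
          congr 1
          have := mem_range.1 hi
          omega
        rw [sum_congr rfl h6, sum_const, card_range, nsmul_eq_mul, ZMod.natCast_self, zero_mul]
      obtain ⟨z, hz⟩ := h4
      rw [hz]
      exact ⟨z * y, by ring⟩
    rw [hodd.neg_one_pow, sub_neg_eq_add, hx, ← pow_mul, mul_assoc, ← pow_succ] at h2
    exact_mod_cast h2

theorem main {k : Type} [Field k] [Finite k] (p : ℕ) [Fact p.Prime] [CharP k p] (i l : ℕ)
    (hi : 0 < i) (hl : l.Prime) (hl2 : l ≠ 2) (hlp : l ≠ p) (hln : ¬ l ∣ 2 * i + 1) (m : ℕ) :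
    ∃ L : ℂ[X], DW.IsLPolynomial L (traceSum k (2 * i + 1) (l ^ m)) ∧
      ((∃ ν, l ∣ p ^ ν + 1) →
        meromorphicOrderAt (fun s : ℂ => L.eval ((Nat.card k : ℂ) ^ (-s))) i =
          ((∑ j ∈ range m, Nat.totient (l ^ (j + 1)) / orderOf (Nat.card k : ZMod (l ^ (j + 1))) :
            ℕ) : ℤ)) ∧
      ((∀ ν, ¬ l ∣ p ^ ν + 1) →
        meromorphicOrderAt (fun s : ℂ => L.eval ((Nat.card k : ℂ) ^ (-s))) i = 0) := by
  classical
  letI : Fintype k := Fintype.ofFinite k
  haveI : Fact l.Prime := ⟨hl⟩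
  have hpp : p.Prime := Fact.out
  obtain ⟨f, _, hcard⟩ := FiniteField.card k p
  set q := Nat.card k with hqdef
  have hqf : q = p ^ (f : ℕ) := by rw [hqdef, Nat.card_eq_fintype_card, hcard]
  have hpl : Nat.Coprime p l := (Nat.coprime_primes hpp hl).2 (Ne.symm hlp)
  have hcop : Nat.Coprime q (l ^ m) := by
    rw [hqf]
    exact Nat.Coprime.pow _ _ hpl
  have hl1 : 1 < l := hl.one_lt
  obtain ⟨L, hL, hord⟩ := lpoly (k := k) (2 * i + 1) (l ^ m) ⟨i, rfl⟩ (pow_ne_zero _ (by omega)) hcop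
  have hform : ∀ e, e ∣ l ^ m → ¬ e ∣ 2 * i + 1 → ∃ j, e = l ^ (j + 1) := by
    intro e he hne
    obtain ⟨j, _, rfl⟩ := (Nat.dvd_prime_pow hl).1 he
    rcases j with _ | j
    · exact absurd (by simp) hne
    · exact ⟨j, rfl⟩
  have hcharE : ∀ (E : Type) [Field E] [Fintype E] [Algebra k E], CharP E p := fun E _ _ _ =>
    charP_of_injective_algebraMap (algebraMap k E).injective p
  refine ⟨L, hL, ?_, ?_⟩
  · rintro ⟨ν, hν⟩
    rw [hord i (fun _ => True)]
    · congr 2
      have h1 : (l ^ m).divisors.filter (fun e => ¬ e ∣ 2 * i + 1 ∧ True) =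
          (range m).image (fun j => l ^ (j + 1)) := by
        ext e
        rw [mem_filter, Nat.mem_divisors, mem_image]
        constructor
        · rintro ⟨⟨h2, _⟩, h3, _⟩
          obtain ⟨j, rfl⟩ := hform e h2 h3
          refine ⟨j, ?_, rfl⟩
          rw [mem_range]
          have := (Nat.pow_dvd_pow_iff_le_right hl1).1 h2
          omega
        · rintro ⟨j, hj, rfl⟩
          rw [mem_range] at hj
          refine ⟨⟨pow_dvd_pow l hj, pow_ne_zero _ (by omega)⟩, ?_, trivial⟩
          intro h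
          exact hln ((dvd_pow_self l (Nat.succ_ne_zero j)).trans h)
      rw [h1, sum_image]
      intro a _ b _ h
      have := Nat.pow_right_injective hl1 h
      omega
    · intro e he hne E _ _ _ _ χ _ hχ
      refine ⟨fun _ => trivial, fun _ => ?_⟩
      haveI := hcharE E
      obtain ⟨j, rfl⟩ := hform e he hne
      have h1 : orderOf χ ∣ p ^ (ν * l ^ j) + 1 := by
        rw [hχ]
        exact lift_neg_one hl hl2 hν j
      have h2 : χ ^ (2 * i + 1) ≠ 1 := by
        rw [Ne, ← orderOf_dvd_iff_pow_eq_one, hχ]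
        exact hne
      rw [jac_val p _ i χ h1 h2, hχ]
      unfold DW.val
      rw [if_neg]
      rintro ⟨h3, _⟩
      have h4 : l ∣ 2 := by
        rw [← h3]
        exact dvd_pow_self l (Nat.succ_ne_zero j)
      exact hl2 ((Nat.prime_dvd_prime_iff_eq hl Nat.prime_two).1 h4)
  · intro hν
    rw [hord i (fun _ => False)]
    · simp
    · intro e he hne E _ _ _ _ χ _ hχ
      refine ⟨fun h => ?_, fun h => h.elim⟩
      haveI := hcharE E
      obtain ⟨j, rfl⟩ := hform e he hne
      exact jacG_ne (p := p) (l := l) hν (2 * i + 1) i j (by omega)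
        ((Nat.Prime.coprime_iff_not_dvd hl).2 hln).symm χ hχ h

end Pool.Agent.Y145.DI
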