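import Pool.Agent.W528.HB.Est
import Pool.Agent.W999.HB.TP
import Pool.Agent.W400.HB.TT
import Pool.Agent.W271.HB.AY
import Pool.Agent.W540.HB.GO
import Pool.Agent.W135.HB.SA
import Pool.Agent.W883.HB.DG
import Pool.Agent.W563.HB.DI
import Pool.Agent.H916R2.OddChar
import Pool.Agent.Y145.DI.JacG

/-!
# The absolute values of the Gauss sums
-/

set_option autoImplicit false
set_option linter.unusedSectionVars false
set_option linter.style.haveILetI false

namespace Pool.Agent.Y145.DI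

open Finset Pool.Agent.W528.HB

variable {p : ℕ} [Fact p.Prime]

theorem exists_wp (E : Type) [Field E] [Fintype E] [DecidableEq E] [CharP E p] :
    ∃ (w : MulChar E (PadicAlgCl p)) (ψ : AddChar E (PadicAlgCl p)), ψ.IsPrimitive ∧
      (∀ y, ψ (y ^ p) = ψ y) ∧
      ‖((p : ℕ) : PadicAlgCl p)‖ ≤ ‖gaussSum w⁻¹ ψ‖ ^ (p - 1) ∧
      orderOf w = Fintype.card E - 1 := by
  classical
  obtain ⟨k, hk, R, res, hac, hch, hR⟩ := Pool.Agent.W999.HB.TP.main p
  letI := ZMod.algebra E p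
  letI := ZMod.algebra k p
  haveI : Module.Finite (ZMod p) E := Module.Finite.of_finite
  let e : E →ₐ[ZMod p] k := IsAlgClosed.lift
  obtain ⟨w, hw⟩ := Pool.Agent.W400.HB.TT.main p k R res hR E e.toRingHom
  obtain ⟨⟨ψ, hψ⟩, hprop⟩ := Pool.Agent.W271.HB.AY.main p E
  obtain ⟨hψ1, hψ2⟩ := hprop ψ hψ
  have hgo := Pool.Agent.W540.HB.GO.main p k R res hR E e.toRingHom w hw ψ hψ
  refine ⟨w, ψ, hψ1, hψ2, hgo, ?_⟩
  apply Nat.dvd_antisymm w.orderOf_dvd_card_sub_one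
  obtain ⟨g, hg⟩ := IsCyclic.exists_generator (α := Eˣ)
  have h1 : orderOf g = Fintype.card E - 1 := by
    rw [orderOf_eq_card_of_forall_mem_zpowers hg, Nat.card_eq_fintype_card, Fintype.card_units]
  rw [← h1]
  apply orderOf_dvd_of_pow_eq_one
  have h2 : w ((g : E) ^ orderOf w) = 1 := by
    rw [map_pow, ← MulChar.pow_apply_coe, pow_orderOf_eq_one, MulChar.one_apply_coe]
  obtain ⟨h3, h4⟩ := hw ((g : E) ^ orderOf w)
  have h5 : (⟨w ((g : E) ^ orderOf w), h3⟩ : R) = 1 := Subtype.ext h2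
  rw [h5, map_one] at h4
  have h6 : e ((g : E) ^ orderOf w) = e 1 := by
    rw [map_one]
    exact h4.symm
  have h7 := e.toRingHom.injective h6
  apply Units.ext
  rw [Units.val_pow_eq_pow_val, Units.val_one]
  exact h7

/-- The exponent in Stickelberger's theorem. -/
def expo (p N F b : ℕ) : ℕ := ∑ s ∈ range F, (b * p ^ s) % N

theorem norm_p_lt : 0 < ‖((p : ℕ) : PadicAlgCl p)‖ ∧ ‖((p : ℕ) : PadicAlgCl p)‖ < 1 := by
  have h1 : ((p : ℕ) : PadicAlgCl p) = algebraMap ℚ_[p] (PadicAlgCl p) (p : ℚ_[p]) := by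
    rw [map_natCast]
  have h2 : ‖algebraMap ℚ_[p] (PadicAlgCl p) (p : ℚ_[p])‖ = ‖(p : ℚ_[p])‖ :=
    PadicAlgCl.norm_extends _ _
  have hp1 : 1 < p := (Fact.out : p.Prime).one_lt
  rw [h1, h2, Padic.norm_p]
  constructor
  · rw [inv_pos]
    exact_mod_cast (by omega : 0 < p)
  · exact inv_lt_one_of_one_lt₀ (by exact_mod_cast hp1)

theorem norm_gauss_eq {E : Type} [Field E] [Fintype E] [DecidableEq E] [CharP E p]
    (w : MulChar E (PadicAlgCl p)) (ψ : AddChar E (PadicAlgCl p)) (hψ : ψ.IsPrimitive)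
    (hψc : ∀ y, ψ (y ^ p) = ψ y)
    (hw : ‖((p : ℕ) : PadicAlgCl p)‖ ≤ ‖gaussSum w⁻¹ ψ‖ ^ (p - 1))
    (ho : orderOf w = Fintype.card E - 1) {N F : ℕ}
    (hF : Fintype.card E = p ^ F) (hN : N ∣ Fintype.card E - 1) (hF0 : 0 < F) (b : ℕ)
    (hb0 : 0 < b) (hb : b < N) :
    ‖gaussSum ((w ^ ((Fintype.card E - 1) / N)) ^ b)⁻¹ ψ‖ ^ N =
      ‖((p : ℕ) : PadicAlgCl p)‖ ^ expo p N F b := by
  obtain ⟨hp0, hp1⟩ := norm_p_lt (p := p)
  have hDG := Pool.Agent.W883.HB.DG.main Pool.Agent.W135.HB.SA.main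
  have hDI := Pool.Agent.W563.HB.DI.main
  have h1 := norm_gauss hDG hDI w ψ hψ hψc hw hF hN hF0 b hb
  have h2 := norm_gauss hDG hDI w ψ hψ hψc hw hF hN hF0 (N - b) (by omega)
  set T := w ^ ((Fintype.card E - 1) / N) with hT
  have hTN : T ^ N = 1 := T_pow_card w hN
  have hQ1 : 1 < Fintype.card E := Fintype.one_lt_card
  have hTo : orderOf T = N := by
    have hd : (Fintype.card E - 1) / N ≠ 0 := by
      have := Nat.div_pos (Nat.le_of_dvd (by omega) hN) (by omega : 0 < N)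
      omega
    rw [hT, orderOf_pow_of_dvd hd (by rw [ho]; exact Nat.div_dvd_of_dvd hN), ho,
      Nat.div_div_self hN (by omega)]
  have hTb : T ^ b ≠ 1 := by
    intro h
    have h3 := orderOf_dvd_of_pow_eq_one h
    rw [hTo] at h3
    exact absurd (Nat.le_of_dvd hb0 h3) (by omega)
  have h3 : (T ^ (N - b))⁻¹ = T ^ b := by
    rw [inv_eq_iff_mul_eq_one, ← pow_add, Nat.sub_add_cancel hb.le, hTN]
  have h4 := gaussSum_mul_gaussSum_eq_card hTb hψ
  have h5 : ‖gaussSum (T ^ b)⁻¹ ψ⁻¹‖ = ‖gaussSum (T ^ b)⁻¹ ψ‖ := by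
    have h6 : gaussSum (T ^ b)⁻¹ ψ⁻¹ = (T ^ b) (-1) * gaussSum (T ^ b)⁻¹ ψ := by
      have h7 := gaussSum_mulShift_eq (T ^ b)⁻¹ ψ (-1 : Eˣ)
      rw [inv_inv] at h7
      have h8 : AddChar.mulShift ψ ((-1 : Eˣ) : E) = ψ⁻¹ := by
        ext x
        rw [AddChar.mulShift_apply, AddChar.inv_apply]
        congr 1
        simp
      rw [h8] at h7
      rw [h7]
      simp
    rw [h6, norm_mul]
    have h7 : ‖(T ^ b) (-1)‖ = 1 := by
      have h8 : ((T ^ b) (-1)) ^ 2 = 1 := by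
        rw [← map_pow, neg_one_sq, map_one]
      have h9 := congrArg norm h8
      rw [norm_pow, norm_one] at h9
      exact (pow_eq_one_iff_of_nonneg (norm_nonneg _) two_ne_zero).1 h9
    rw [h7, one_mul]
  have h6 : ‖gaussSum (T ^ (N - b))⁻¹ ψ‖ * ‖gaussSum (T ^ b)⁻¹ ψ‖ =
      ‖((p : ℕ) : PadicAlgCl p)‖ ^ F := by
    rw [h3, ← h5, ← norm_mul, h4, hF]
    push_cast
    rw [norm_pow]
  have h7 : expo p N F b + expo p N F (N - b) = F * N := by
    unfold expo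
    rw [← sum_add_distrib]
    have hcop : ∀ s, Nat.Coprime (p ^ s) N := by
      intro s
      apply Nat.Coprime.pow_left
      rw [Nat.Prime.coprime_iff_not_dvd (Fact.out : p.Prime)]
      intro h
      have h8 : p ∣ Fintype.card E - 1 := h.trans hN
      have h9 : p ∣ Fintype.card E := by
        rw [hF]
        exact dvd_pow_self p hF0.ne'
      have h10 : p ∣ 1 := (Nat.dvd_sub_iff_right hQ1.le h9).1 h8
      exact (Fact.out : p.Prime).one_lt.ne' (Nat.dvd_one.1 h10)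
    rw [sum_congr rfl fun s _ => ?_, sum_const, card_range, smul_eq_mul]
    have h8 : ((b * p ^ s) % N + ((N - b) * p ^ s) % N) % N = 0 := by
      rw [← Nat.add_mod, ← add_mul, Nat.add_sub_cancel' hb.le]
      simp
    have h9 : (b * p ^ s) % N ≠ 0 := by
      intro h
      have h10 := (Nat.Coprime.symm (hcop s)).dvd_of_dvd_mul_right (Nat.dvd_of_mod_eq_zero h)
      exact absurd (Nat.le_of_dvd hb0 h10) (by omega)
    have h10 := Nat.mod_lt (b * p ^ s) (by omega : 0 < N)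
    have h11 := Nat.mod_lt ((N - b) * p ^ s) (by omega : 0 < N)
    obtain ⟨c, hc⟩ := Nat.dvd_of_mod_eq_zero h8
    have h12 : 0 < c := by
      rcases Nat.eq_zero_or_pos c with h | h
      · rw [h, mul_zero] at hc
        omega
      · exact h
    have h13 : c < 2 := by
      by_contra h
      have h14 : N * 2 ≤ N * c := Nat.mul_le_mul_left N (by omega)
      omega
    have h14 : c = 1 := by omega
    rw [hc, h14, mul_one]
  have h8 : ‖gaussSum (T ^ (N - b))⁻¹ ψ‖ ^ N * ‖gaussSum (T ^ b)⁻¹ ψ‖ ^ N =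
      ‖((p : ℕ) : PadicAlgCl p)‖ ^ expo p N F (N - b) * ‖((p : ℕ) : PadicAlgCl p)‖ ^ expo p N F b := by
    rw [← mul_pow, h6, ← pow_mul, ← h7, pow_add, mul_comm]
  apply le_antisymm _ h1
  by_contra h9
  rw [not_le] at h9
  have h10 : ‖((p : ℕ) : PadicAlgCl p)‖ ^ expo p N F (N - b) *
      ‖((p : ℕ) : PadicAlgCl p)‖ ^ expo p N F b <
      ‖gaussSum (T ^ (N - b))⁻¹ ψ‖ ^ N * ‖gaussSum (T ^ b)⁻¹ ψ‖ ^ N :=
    mul_lt_mul_of_le_of_lt_of_pos_of_nonneg h2 h9 (pow_pos hp0 _)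
      (pow_nonneg (norm_nonneg _) _)
  exact absurd h8 h10.ne'

end Pool.Agent.Y145.DI
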